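import Pool.Agent.H240.GU.Def
import Pool.Agent.H240.AL.Ident

/-! # `GU-4`: flattening near the closed geodesic (helper356) -/

set_option autoImplicit false
set_option linter.all false
set_option linter.unusedSectionVars false

open Set Filter Topology MeasureTheory
open scoped ContDiff Real

noncomputable section

namespace Pool.Agent.H356.GU


/-! ### one-variable functions -/

theorem prim {g : ℝ → ℝ} (hg : ContDiff ℝ ∞ g) (a : ℝ) :
    ContDiff ℝ ∞ (fun u => ∫ s in a..u, g s) ∧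
      ∀ u, HasDerivAt (fun u => ∫ s in a..u, g s) (g u) u := by
  have h1 : ∀ u, HasDerivAt (fun u => ∫ s in a..u, g s) (g u) u := fun u =>
    (hg.continuous.integral_hasStrictDerivAt a u).hasDerivAt
  refine ⟨?_, h1⟩
  rw [contDiff_infty_iff_deriv]
  refine ⟨fun u => (h1 u).differentiableAt, ?_⟩
  have h2 : deriv (fun u => ∫ s in a..u, g s) = g := funext fun u => (h1 u).deriv
  rw [h2]; exact hg

/-- the function `N` -/
theorem exN : ∃ (N N1 N2 : ℝ → ℝ) (κ C : ℝ), ContDiff ℝ ∞ N ∧ ContDiff ℝ ∞ N1 ∧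
    (∀ u, HasDerivAt N (N1 u) u) ∧ (∀ u, HasDerivAt N1 (N2 u) u) ∧
    (∀ u, 1 ≤ u → N u = 0) ∧ (∀ u, u ≤ -1 → N u = κ - u) ∧ (∀ u, -1 ≤ N1 u) ∧ (∀ u, N1 u ≤ 0) ∧
    (∀ u, 0 ≤ N2 u) ∧ (∀ u, N2 u ≤ C) ∧ (∀ u, |N u| ≤ |u| + 1) ∧ |κ| ≤ 3 ∧ 0 ≤ C := by
  set τ : ℝ → ℝ := fun v => Real.smoothTransition ((v + 1) / 2) with hτ
  have τs : ContDiff ℝ ∞ τ := by
    refine Real.smoothTransition.contDiff.comp ?_
    fun_prop
  have τm : Monotone τ := by
    intro x y hxy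
    refine Real.smoothTransition.monotone ?_
    linarith
  have τ0 : ∀ v, 0 ≤ τ v := fun v => Real.smoothTransition.nonneg _
  have τ1 : ∀ v, τ v ≤ 1 := fun v => Real.smoothTransition.le_one _
  have τz : ∀ v, v ≤ -1 → τ v = 0 := fun v hv =>
    Real.smoothTransition.zero_of_nonpos (by linarith)
  have τo : ∀ v, 1 ≤ v → τ v = 1 := fun v hv =>
    Real.smoothTransition.one_of_one_le (by linarith)
  have n1s : ContDiff ℝ ∞ (fun v => τ v - 1) := τs.sub contDiff_const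
  obtain ⟨hN, hN'⟩ := prim n1s 1
  set N : ℝ → ℝ := fun u => ∫ s in (1:ℝ)..u, (τ s - 1) with hNd
  have dτ : ∀ u, HasDerivAt (fun v => τ v - 1) (deriv τ u) u := fun u =>
    ((τs.differentiable (by simp)) u).hasDerivAt.sub_const 1
  have hb : ∃ C, ∀ u, deriv τ u ≤ C := by
    have hc : Continuous (deriv τ) := τs.continuous_deriv (by simp)
    obtain ⟨C, hC⟩ := (isCompact_Icc (a := (-1:ℝ)) (b := 1)).bddAbove_image hc.continuousOn
    refine ⟨max C 0, fun u => ?_⟩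
    by_cases h1 : u ∈ Icc (-1:ℝ) 1
    · exact le_max_of_le_left (hC (mem_image_of_mem _ h1))
    · refine le_max_of_le_right ?_
      have : deriv τ u = 0 := by
        rcases lt_or_ge u (-1) with h | h
        · have h2 : τ =ᶠ[𝓝 u] fun _ => (0:ℝ) := by
            filter_upwards [Iio_mem_nhds h] with v hv
            exact τz v (le_of_lt hv)
          rw [h2.deriv_eq]; simp
        · have h' : 1 < u := by
            by_contra hh
            exact h1 ⟨h, not_lt.1 hh⟩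
          have h2 : τ =ᶠ[𝓝 u] fun _ => (1:ℝ) := by
            filter_upwards [Ioi_mem_nhds h'] with v hv
            exact τo v (le_of_lt hv)
          rw [h2.deriv_eq]; simp
      exact this.le
  obtain ⟨C, hC⟩ := hb
  have dnn : ∀ u, 0 ≤ deriv τ u := fun u => τm.deriv_nonneg
  have Nabs : ∀ u, |N u| ≤ |u - 1| := by
    intro u
    have h := intervalIntegral.norm_integral_le_of_norm_le_const (a := (1:ℝ)) (b := u) (C := 1)
      (f := fun s => τ s - 1) (fun x _ => by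
        rw [Real.norm_eq_abs, abs_le]
        constructor
        · linarith [τ0 x]
        · linarith [τ1 x])
    rw [one_mul, Real.norm_eq_abs] at h
    exact h
  refine ⟨N, fun v => τ v - 1, deriv τ, N (-1) - 1, C, hN, n1s, hN', dτ, ?_, ?_, ?_, ?_, dnn, hC,
    ?_, ?_, ?_⟩
  · intro u hu
    show ∫ s in (1:ℝ)..u, (τ s - 1) = 0
    rw [intervalIntegral.integral_congr (g := fun _ => (0:ℝ))]
    · simp
    · intro x hx
      rw [uIcc_of_le hu] at hx
      show τ x - 1 = 0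
      rw [τo x hx.1]; ring
  · intro u hu
    have h1 : N u = N (-1) + ∫ s in (-1:ℝ)..u, (τ s - 1) := by
      show ∫ s in (1:ℝ)..u, (τ s - 1) = (∫ s in (1:ℝ)..(-1), (τ s - 1)) + _
      rw [intervalIntegral.integral_add_adjacent_intervals]
      · exact n1s.continuous.intervalIntegrable _ _
      · exact n1s.continuous.intervalIntegrable _ _
    have h2 : ∫ s in (-1:ℝ)..u, (τ s - 1) = ∫ s in (-1:ℝ)..u, (-1:ℝ) := by
      refine intervalIntegral.integral_congr ?_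
      intro x hx
      rw [uIcc_of_ge hu] at hx
      show τ x - 1 = -1
      rw [τz x hx.2]; ring
    rw [h1, h2, intervalIntegral.integral_const]
    simp only [smul_eq_mul]
    ring
  · intro u
    show -1 ≤ τ u - 1
    linarith [τ0 u]
  · intro u
    show τ u - 1 ≤ 0
    linarith [τ1 u]
  · intro u
    refine (Nabs u).trans ?_
    calc |u - 1| ≤ |u| + |(1:ℝ)| := abs_sub _ _
      _ = |u| + 1 := by simp
  · have h := Nabs (-1)
    have h2 : |(-1:ℝ) - 1| = 2 := by norm_num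
    rw [h2, abs_le] at h
    rw [abs_le]
    constructor
    · linarith [h.1]
    · linarith [h.2]
  · exact (dnn 0).trans (hC 0)

/-- the function `β` -/
theorem exB {r A η : ℝ} (hr : 0 < r) (hA : 0 < A) (hη : 0 < η) :
    ∃ (β β1 β2 : ℝ → ℝ), ContDiff ℝ ∞ β ∧ ContDiff ℝ ∞ β1 ∧
    (∀ u, HasDerivAt β (β1 u) u) ∧ (∀ u, HasDerivAt β1 (β2 u) u) ∧
    (∀ u, |u| ≤ r → β u = 0) ∧ (∀ u, r < |u| → 0 < β2 u) ∧ (∀ u, 0 ≤ β2 u) ∧
    (∀ u, |u| ≤ A → |β u| ≤ η) ∧ (∀ u, |u| ≤ A → |β1 u| ≤ η) ∧ (∀ u, |u| ≤ A → |β2 u| ≤ η) := by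
  set g : ℝ → ℝ := fun t => expNegInvGlue (t ^ 2 - r ^ 2) with hg
  have gs : ContDiff ℝ ∞ g := by
    refine expNegInvGlue.contDiff.comp ?_
    fun_prop
  have g0 : ∀ t, 0 ≤ g t := fun t => expNegInvGlue.nonneg _
  have gp : ∀ t, r < |t| → 0 < g t := by
    intro t ht
    refine expNegInvGlue.pos_of_pos ?_
    have : r ^ 2 < |t| ^ 2 := by
      apply pow_lt_pow_left₀ ht hr.le (by norm_num)
    rw [sq_abs] at this
    linarith
  have gz : ∀ t, |t| ≤ r → g t = 0 := by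
    intro t ht
    refine expNegInvGlue.zero_of_nonpos ?_
    have : |t| ^ 2 ≤ r ^ 2 := pow_le_pow_left₀ (abs_nonneg t) ht 2
    rw [sq_abs] at this
    linarith
  obtain ⟨G1s, G1d⟩ := prim gs 0
  set G1 : ℝ → ℝ := fun u => ∫ s in (0:ℝ)..u, g s with hG1
  obtain ⟨Gs, Gd⟩ := prim G1s 0
  set G : ℝ → ℝ := fun u => ∫ s in (0:ℝ)..u, G1 s with hG
  have hin : ∀ u, |u| ≤ r → ∀ x ∈ uIcc (0:ℝ) u, |x| ≤ r := by
    intro u hu x hx
    have : |x - 0| ≤ |u - 0| := abs_sub_left_of_mem_uIcc hx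
    simp only [sub_zero] at this
    exact this.trans hu
  have G1z : ∀ u, |u| ≤ r → G1 u = 0 := by
    intro u hu
    show ∫ s in (0:ℝ)..u, g s = 0
    rw [intervalIntegral.integral_congr (g := fun _ => (0:ℝ))]
    · simp
    · intro x hx
      exact gz x (hin u hu x hx)
  have Gz : ∀ u, |u| ≤ r → G u = 0 := by
    intro u hu
    show ∫ s in (0:ℝ)..u, G1 s = 0
    rw [intervalIntegral.integral_congr (g := fun _ => (0:ℝ))]
    · simp
    · intro x hx
      exact G1z x (hin u hu x hx)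
  have hbd : ∀ h : ℝ → ℝ, Continuous h → ∃ M, ∀ u, |u| ≤ A → |h u| ≤ M := by
    intro h hh
    obtain ⟨M, hM⟩ := (isCompact_Icc (a := -A) (b := A)).bddAbove_image
      (f := fun u => |h u|) (hh.abs.continuousOn)
    refine ⟨M, fun u hu => ?_⟩
    have h1 : u ∈ Icc (-A) A := abs_le.1 hu
    exact hM (mem_image_of_mem _ h1)
  obtain ⟨M0, hM0⟩ := hbd G Gs.continuous
  obtain ⟨M1, hM1⟩ := hbd G1 G1s.continuous
  obtain ⟨M2, hM2⟩ := hbd g gs.continuous
  have h0A : |(0:ℝ)| ≤ A := by rw [abs_zero]; exact hA.le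
  have p0 : 0 ≤ M0 := (abs_nonneg _).trans (hM0 0 h0A)
  have p1 : 0 ≤ M1 := (abs_nonneg _).trans (hM1 0 h0A)
  have p2 : 0 ≤ M2 := (abs_nonneg _).trans (hM2 0 h0A)
  set M := M0 + M1 + M2 + 1 with hM
  have Mp : 0 < M := by linarith
  set σ := η / M with hσ
  have σp : 0 < σ := div_pos hη Mp
  have σM : σ * M = η := by rw [hσ]; field_simp
  have key : ∀ x : ℝ, |x| ≤ M → |σ * x| ≤ η := by
    intro x hx
    rw [abs_mul, abs_of_pos σp]
    calc σ * |x| ≤ σ * M := by gcongr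
      _ = η := σM
  refine ⟨fun u => σ * G u, fun u => σ * G1 u, fun u => σ * g u, contDiff_const.mul Gs,
    contDiff_const.mul G1s, fun u => (Gd u).const_mul σ, fun u => (G1d u).const_mul σ, ?_, ?_, ?_,
    ?_, ?_, ?_⟩
  · intro u hu
    show σ * G u = 0
    rw [Gz u hu, mul_zero]
  · intro u hu
    exact mul_pos σp (gp u hu)
  · intro u
    exact mul_nonneg σp.le (g0 u)
  · intro u hu
    exact key _ ((hM0 u hu).trans (by linarith))
  · intro u hu
    exact key _ ((hM1 u hu).trans (by linarith))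
  · intro u hu
    exact key _ ((hM2 u hu).trans (by linarith))


theorem mono_aux {f f1 : ℝ → ℝ} {T : ℝ} (h1 : ∀ t, |t| < T → HasDerivAt f (f1 t) t)
    {t : ℝ} (ht0 : 0 ≤ t) (htT : t < T) (h0 : f 0 = 0) (hn : ∀ x, 0 ≤ x → x < T → 0 ≤ f1 x) :
    0 ≤ f t := by
  have hm : MonotoneOn f (Icc 0 t) := by
    refine monotoneOn_of_deriv_nonneg (convex_Icc 0 t) ?_ ?_ ?_
    · intro x hx
      exact (h1 x (by rw [abs_of_nonneg hx.1]; linarith [hx.2])).continuousAt.continuousWithinAt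
    · intro x hx
      rw [interior_Icc] at hx
      exact (h1 x (by rw [abs_of_nonneg hx.1.le]; linarith [hx.2])).differentiableAt.differentiableWithinAt
    · intro x hx
      rw [interior_Icc] at hx
      rw [(h1 x (by rw [abs_of_nonneg hx.1.le]; linarith [hx.2])).deriv]
      exact hn x hx.1.le (by linarith [hx.2])
  have := hm (left_mem_Icc.2 ht0) (right_mem_Icc.2 ht0) ht0
  rw [h0] at this
  exact this

theorem low_pos {f f1 f2 : ℝ → ℝ} {T k : ℝ} (h1 : ∀ t, |t| < T → HasDerivAt f (f1 t) t)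
    (h2 : ∀ t, |t| < T → HasDerivAt f1 (f2 t) t) (h0 : f 0 = 0) (h0' : f1 0 = 0)
    (hl : ∀ t, |t| < T → 2 * k ≤ f2 t) {t : ℝ} (ht0 : 0 ≤ t) (htT : t < T) : k * t ^ 2 ≤ f t := by
  have hA : ∀ x, 0 ≤ x → x < T → 0 ≤ f1 x - 2 * k * x := by
    intro x hx hxT
    refine mono_aux (f := fun x => f1 x - 2 * k * x) (f1 := fun x => f2 x - 2 * k) (T := T) ?_ hx
      hxT ?_ ?_
    · intro y hy
      have h := (h2 y hy).sub ((hasDerivAt_id y).const_mul (2 * k))
      have h' : HasDerivAt (fun x => f1 x - 2 * k * x) (f2 y - 2 * k * 1) y := h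
      rw [mul_one] at h'
      exact h'
    · show f1 0 - 2 * k * 0 = 0
      rw [h0']; ring
    · intro y hy hyT
      have := hl y (by rw [abs_of_nonneg hy]; exact hyT)
      show 0 ≤ f2 y - 2 * k
      linarith
  have hB : 0 ≤ f t - k * t ^ 2 := by
    refine mono_aux (f := fun x => f x - k * x ^ 2) (f1 := fun x => f1 x - 2 * k * x) (T := T) ?_ ht0
      htT ?_ hA
    · intro y hy
      have h := (h1 y hy).sub (((hasDerivAt_id y).pow 2).const_mul k)
      have e : f1 y - k * (↑2 * id y ^ (2 - 1) * 1) = f1 y - 2 * k * y := by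
        simp; ring
      have h' : HasDerivAt (fun x => f x - k * x ^ 2) (f1 y - k * (↑2 * id y ^ (2 - 1) * 1)) y := h
      rw [e] at h'
      exact h'
    · show f 0 - k * 0 ^ 2 = 0
      rw [h0]; ring
  linarith

theorem oneVar {f f1 f2 : ℝ → ℝ} {T k K : ℝ} (h1 : ∀ t, |t| < T → HasDerivAt f (f1 t) t)
    (h2 : ∀ t, |t| < T → HasDerivAt f1 (f2 t) t) (h0 : f 0 = 0) (h0' : f1 0 = 0)
    (hl : ∀ t, |t| < T → 2 * k ≤ f2 t) (hu : ∀ t, |t| < T → |f2 t| ≤ K) :
    ∀ t, |t| < T → k * t ^ 2 ≤ f t ∧ |f t| ≤ K * t ^ 2 ∧ |f1 t| ≤ K * |t| := by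
  intro t ht
  have hin : ∀ x ∈ uIcc (0:ℝ) t, |x| ≤ |t| := by
    intro x hx
    have : |x - 0| ≤ |t - 0| := abs_sub_left_of_mem_uIcc hx
    simpa using this
  have hb1 : ∀ x, |x| < T → |f1 x| ≤ K * |x| := by
    intro x hx
    have hin' : ∀ y ∈ uIcc (0:ℝ) x, |y| ≤ |x| := by
      intro y hy
      have : |y - 0| ≤ |x - 0| := abs_sub_left_of_mem_uIcc hy
      simpa using this
    have h := (convex_uIcc (0:ℝ) x).norm_image_sub_le_of_norm_hasDerivWithin_le (f := f1) (f' := f2)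
      (C := K) (fun y hy => (h2 y ((hin' y hy).trans_lt hx)).hasDerivWithinAt)
      (fun y hy => hu y ((hin' y hy).trans_lt hx)) (left_mem_uIcc) (right_mem_uIcc)
    rw [h0', sub_zero, sub_zero] at h
    exact h
  refine ⟨?_, ?_, hb1 t ht⟩
  · rcases le_total 0 t with h | h
    · exact low_pos h1 h2 h0 h0' hl h (by rwa [abs_of_nonneg h] at ht)
    · have h3 := low_pos (f := fun x => f (-x)) (f1 := fun x => -f1 (-x)) (f2 := fun x => f2 (-x))
        (T := T) (k := k) (t := -t) ?_ ?_ ?_ ?_ ?_ (by linarith) (by rwa [abs_of_nonpos h] at ht)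
      · simpa using h3
      · intro y hy
        have h4 := (h1 (-y) (by rwa [abs_neg])).comp y (hasDerivAt_neg y)
        have h5 : HasDerivAt (fun x => f (-x)) (f1 (-y) * -1) y := h4
        have e : f1 (-y) * -1 = -f1 (-y) := by ring
        rw [e] at h5
        exact h5
      · intro y hy
        have h4 := ((h2 (-y) (by rwa [abs_neg])).comp y (hasDerivAt_neg y)).neg
        have h5 : HasDerivAt (fun x => -f1 (-x)) (-(f2 (-y) * -1)) y := h4
        have e : -(f2 (-y) * -1) = f2 (-y) := by ring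
        rw [e] at h5
        exact h5
      · show f (-0) = 0
        rw [neg_zero, h0]
      · show -f1 (-0) = 0
        rw [neg_zero, h0', neg_zero]
      · intro y hy
        exact hl (-y) (by rwa [abs_neg])
  · have h := (convex_uIcc (0:ℝ) t).norm_image_sub_le_of_norm_hasDerivWithin_le (f := f) (f' := f1)
      (C := K * |t|) (fun y hy => (h1 y ((hin y hy).trans_lt ht)).hasDerivWithinAt)
      (fun y hy => (hb1 y ((hin y hy).trans_lt ht)).trans (by
        have hK : 0 ≤ K := (abs_nonneg _).trans (hu t ht)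
        exact mul_le_mul_of_nonneg_left (hin y hy) hK)) (left_mem_uIcc) (right_mem_uIcc)
    rw [h0, sub_zero, sub_zero] at h
    rw [Real.norm_eq_abs, Real.norm_eq_abs] at h
    calc |f t| ≤ K * |t| * |t| := h
      _ = K * (|t| * |t|) := by ring
      _ = K * t ^ 2 := by rw [abs_mul_abs_self]; ring


open Pool.Agent.Y262.EG Pool.Agent.H240.AL Pool.Agent.H240.AL.I2

theorem mem_Sx {x0 R : ℝ} {z : ℂ} : z ∈ Sx x0 R ↔ |z.re - x0| < R := Iff.rfl

theorem red {x0 R : ℝ} {h : ℂ → ℝ} (hp : ∀ z ∈ Sx x0 R, h (z + 2 * π * Complex.I) = h z) {z : ℂ}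
    (hz : z ∈ Sx x0 R) : ∃ y ∈ Ico (0:ℝ) (2 * π), h z = h ⟨z.re, y⟩ := by
  have hP : Function.Periodic (fun y : ℝ => h ⟨z.re, y⟩) (2 * π) := by
    intro y
    have h1 : (⟨z.re, y⟩ : ℂ) ∈ Sx x0 R := hz
    have h2 := hp _ h1
    have h3 : (⟨z.re, y⟩ : ℂ) + 2 * π * Complex.I = ⟨z.re, y + 2 * π⟩ := by
      apply Complex.ext
      · simp
      · simp
    rw [h3] at h2
    exact h2
  obtain ⟨y, hy, he⟩ := hP.exists_mem_Ico₀ (by positivity) z.im
  exact ⟨y, hy, he⟩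

theorem bdd {x0 R r : ℝ} (hr : r < R) {h : ℂ → ℝ} (hc : ContinuousOn h (Sx x0 R))
    (hp : ∀ z ∈ Sx x0 R, h (z + 2 * π * Complex.I) = h z) :
    ∃ K : ℝ, 0 ≤ K ∧ ∀ z : ℂ, |z.re - x0| ≤ r → |h z| ≤ K := by
  have hQ : IsCompact (Icc (x0 - r) (x0 + r) ×ℂ Icc (0:ℝ) (2 * π)) :=
    isCompact_Icc.reProdIm isCompact_Icc
  have hsub : Icc (x0 - r) (x0 + r) ×ℂ Icc (0:ℝ) (2 * π) ⊆ Sx x0 R := by
    intro z hz
    have h1 : z.re ∈ Icc (x0 - r) (x0 + r) := hz.1
    rw [mem_Sx]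
    refine lt_of_le_of_lt ?_ hr
    rw [abs_le]
    exact ⟨by linarith [h1.1], by linarith [h1.2]⟩
  obtain ⟨K, hK⟩ := hQ.bddAbove_image (f := fun z => |h z|) ((hc.mono hsub).abs)
  refine ⟨max K 0, le_max_right _ _, fun z hz => ?_⟩
  obtain ⟨y, hy, he⟩ := red hp (z := z) (mem_Sx.2 (hz.trans_lt hr))
  rw [he]
  refine le_max_of_le_left (hK (mem_image_of_mem _ ⟨?_, ?_⟩))
  · rw [abs_le] at hz
    exact ⟨by show x0 - r ≤ z.re; linarith [hz.1], by show z.re ≤ x0 + r; linarith [hz.2]⟩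
  · exact ⟨hy.1, hy.2.le⟩

theorem pos_near {x0 R : ℝ} (hR : 0 < R) {h : ℂ → ℝ} (hc : ContinuousOn h (Sx x0 R))
    (hp : ∀ z ∈ Sx x0 R, h (z + 2 * π * Complex.I) = h z) (h0 : ∀ z : ℂ, z.re = x0 → 0 < h z) :
    ∃ t0 k : ℝ, 0 < t0 ∧ 0 < k ∧ t0 < R ∧ ∀ z : ℂ, |z.re - x0| < t0 → k ≤ h z := by
  have hL : IsCompact (({x0} : Set ℝ) ×ℂ Icc (0:ℝ) (2 * π)) :=
    isCompact_singleton.reProdIm isCompact_Icc
  have hsub : ({x0} : Set ℝ) ×ℂ Icc (0:ℝ) (2 * π) ⊆ Sx x0 R := by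
    intro z hz
    have h1 : z.re = x0 := hz.1
    rw [mem_Sx, h1, sub_self, abs_zero]
    exact hR
  have hne : (({x0} : Set ℝ) ×ℂ Icc (0:ℝ) (2 * π)).Nonempty :=
    ⟨⟨x0, 0⟩, rfl, ⟨le_rfl, by positivity⟩⟩
  obtain ⟨zm, hzm, hmin⟩ := hL.exists_isMinOn hne (hc.mono hsub)
  have hk : 0 < h zm := h0 zm hzm.1
  set k := h zm / 2 with hkd
  have hkp : 0 < k := by linarith
  obtain ⟨U, hU, hUe⟩ := (continuousOn_iff'.1 hc) (Ioi k) isOpen_Ioi
  have hU' : IsOpen (U ∩ Sx x0 R) := hU.inter (isOpen_Sx x0 R)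
  have hLU : ({x0} : Set ℝ) ×ℂ Icc (0:ℝ) (2 * π) ⊆ U ∩ Sx x0 R := by
    intro z hz
    rw [← hUe]
    refine ⟨?_, hsub hz⟩
    have h1 : h zm ≤ h z := hmin hz
    show k < h z
    linarith
  obtain ⟨t1, ht1, hth⟩ := hL.exists_thickening_subset_open hU' hLU
  refine ⟨min t1 (R / 2), k, by positivity, hkp, lt_of_le_of_lt (min_le_right _ _) (by linarith),
    fun z hz => ?_⟩
  have hzR : z ∈ Sx x0 R := mem_Sx.2 (hz.trans_le ((min_le_right _ _).trans (by linarith)))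
  obtain ⟨y, hy, he⟩ := red hp hzR
  rw [he]
  have h2 : (⟨z.re, y⟩ : ℂ) ∈ Metric.thickening t1 (({x0} : Set ℝ) ×ℂ Icc (0:ℝ) (2 * π)) := by
    rw [Metric.mem_thickening_iff]
    refine ⟨⟨x0, y⟩, ⟨rfl, ⟨hy.1, hy.2.le⟩⟩, ?_⟩
    rw [Complex.dist_of_im_eq (show (⟨z.re, y⟩ : ℂ).im = (⟨x0, y⟩ : ℂ).im from rfl)]
    show dist z.re x0 < t1
    rw [Real.dist_eq]
    exact hz.trans_le (min_le_left _ _)
  have h3 := hth h2
  rw [← hUe] at h3
  exact le_of_lt h3.1

/-! ### lines -/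

theorem py_line {u : ℂ → ℝ} {z : ℂ} (hd : DifferentiableAt ℝ u z)
    (h0 : ∀ y : ℝ, u (z + y • Complex.I) = 0) : py u z = 0 := by
  have h : HasDerivAt (fun t : ℝ => u (z + t • Complex.I)) (fderiv ℝ u z Complex.I) 0 :=
    hd.hasFDerivAt.hasLineDerivAt Complex.I
  have h2 : (fun t : ℝ => u (z + t • Complex.I)) = fun _ => 0 := funext h0
  rw [h2] at h
  exact h.unique (hasDerivAt_const (0:ℝ) (0:ℝ))

theorem lineD {u : ℂ → ℝ} {x0 y t : ℝ} (hd : DifferentiableAt ℝ u (⟨x0 + t, y⟩ : ℂ)) :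
    HasDerivAt (fun s : ℝ => u ⟨x0 + s, y⟩) (px u ⟨x0 + t, y⟩) t := by
  have h : HasDerivAt (fun s : ℝ => u ((⟨x0 + t, y⟩ : ℂ) + s • (1:ℂ)))
      (fderiv ℝ u ⟨x0 + t, y⟩ 1) 0 := hd.hasFDerivAt.hasLineDerivAt 1
  have h2 : HasDerivAt (fun s : ℝ => u ((⟨x0 + t, y⟩ : ℂ) + (s - t) • (1:ℂ)))
      (fderiv ℝ u ⟨x0 + t, y⟩ 1) t := by
    have h' : HasDerivAt (fun s : ℝ => u ((⟨x0 + t, y⟩ : ℂ) + s • (1:ℂ)))
      (fderiv ℝ u ⟨x0 + t, y⟩ 1) (t - t) := by rw [sub_self]; exact h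
    exact h'.comp_sub_const t t
  have h3 : (fun s : ℝ => u ((⟨x0 + t, y⟩ : ℂ) + (s - t) • (1:ℂ))) = fun s : ℝ => u ⟨x0 + s, y⟩ := by
    funext s
    congr 1
    apply Complex.ext
    · simp
    · simp
  rw [h3] at h2
  exact h2


/-! ### the conformal factor near the geodesic -/

theorem coreC {φ : ℂ → ℝ} {x0 δ : ℝ} (hδ : 0 < δ) (hs : ContDiffOn ℝ ∞ φ (Sx x0 δ))
    (hp : ∀ z ∈ Sx x0 δ, φ (z + 2 * π * Complex.I) = φ z)
    (hz : ∀ z : ℂ, z.re = x0 → φ z = 0 ∧ px φ z = 0)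
    (hL : ∀ z ∈ Sx x0 δ, 0 < px (px φ) z + py (py φ) z) :
    ∃ t0 k K : ℝ, 0 < t0 ∧ t0 ≤ δ / 2 ∧ 0 < k ∧ k ≤ K ∧
      (∀ z : ℂ, |z.re - x0| < t0 → k * (z.re - x0) ^ 2 ≤ φ z ∧ |φ z| ≤ K * (z.re - x0) ^ 2 ∧
        |px φ z| ≤ K * |z.re - x0| ∧ |py φ z| ≤ K * |z.re - x0|) ∧
      ∀ z : ℂ, |z.re - x0| ≤ δ / 2 → px (px φ) z + py (py φ) z ≤ K := by
  have s1 := sm_px hs
  have s2 := sm_py hs
  have s11 := sm_px s1
  have s12 := sm_px s2
  have s22 := sm_py s2
  have p1 := per_px hp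
  have p2 := per_py hp
  have p11 := per_px p1
  have p12 := per_px p2
  have p22 := per_py p2
  have hd : δ / 2 < δ := by linarith
  have hline : ∀ z : ℂ, z.re = x0 → z ∈ Sx x0 δ := by
    intro z h
    rw [mem_Sx, h, sub_self, abs_zero]; exact hδ
  have hre : ∀ (z : ℂ) (y : ℝ), z.re = x0 → (z + y • Complex.I).re = x0 := by
    intro z y h
    simp [h]
  have l2 : ∀ z : ℂ, z.re = x0 → py φ z = 0 := fun z h =>
    py_line (sm_diff hs (hline z h)) fun y => (hz _ (hre z y h)).1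
  have l12 : ∀ z : ℂ, z.re = x0 → py (px φ) z = 0 := fun z h =>
    py_line (sm_diff s1 (hline z h)) fun y => (hz _ (hre z y h)).2
  have l22 : ∀ z : ℂ, z.re = x0 → py (py φ) z = 0 := fun z h =>
    py_line (sm_diff s2 (hline z h)) fun y => l2 _ (hre z y h)
  have l11 : ∀ z : ℂ, z.re = x0 → 0 < px (px φ) z := by
    intro z h
    have := hL z (hline z h)
    rw [l22 z h, add_zero] at this
    exact this
  obtain ⟨t1, k1, ht1, hk1, ht1δ, hpos⟩ := pos_near hδ s11.continuousOn p11 l11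
  obtain ⟨K1, hK1p, hK1⟩ := bdd hd s11.continuousOn p11
  obtain ⟨K2, hK2p, hK2⟩ := bdd hd s12.continuousOn p12
  obtain ⟨K3, hK3p, hK3⟩ := bdd hd s22.continuousOn p22
  set t0 := min t1 (δ / 2) with ht0
  set k := k1 / 2 with hk
  set K := K1 + K2 + K3 + k with hK
  have hkp : 0 < k := by positivity
  have ht0p : 0 < t0 := by positivity
  refine ⟨t0, k, K, ht0p, min_le_right _ _, hkp, by linarith, ?_, ?_⟩
  · intro z hzt
    set y := z.im with hy
    set t := z.re - x0 with ht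
    have ez : z = ⟨x0 + t, y⟩ := by
      apply Complex.ext
      · show z.re = x0 + (z.re - x0); ring
      · rfl
    have mem : ∀ s : ℝ, |s| < t0 → (⟨x0 + s, y⟩ : ℂ) ∈ Sx x0 δ := by
      intro s hs
      rw [mem_Sx]
      show |x0 + s - x0| < δ
      rw [add_sub_cancel_left]
      exact hs.trans_le ((min_le_right _ _).trans hd.le)
    have rs : ∀ s : ℝ, |s| < t0 → |(⟨x0 + s, y⟩ : ℂ).re - x0| < t0 := by
      intro s hs
      show |x0 + s - x0| < t0
      rw [add_sub_cancel_left]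
      exact hs
    have e0 : (⟨x0 + 0, y⟩ : ℂ).re = x0 := by
      show x0 + 0 = x0
      ring
    have hone := oneVar (f := fun s => φ ⟨x0 + s, y⟩) (f1 := fun s => px φ ⟨x0 + s, y⟩)
      (f2 := fun s => px (px φ) ⟨x0 + s, y⟩) (T := t0) (k := k) (K := K)
      (fun s hs' => lineD (sm_diff hs (mem s hs')))
      (fun s hs' => lineD (sm_diff s1 (mem s hs')))
      (hz _ e0).1 (hz _ e0).2
      (fun s hs' => by
        have := hpos ⟨x0 + s, y⟩ ((rs s hs').trans_le (min_le_left _ _))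
        show 2 * k ≤ px (px φ) ⟨x0 + s, y⟩
        rw [hk]; linarith)
      (fun s hs' => by
        have := hK1 ⟨x0 + s, y⟩ ((rs s hs').le.trans (min_le_right _ _))
        show |px (px φ) ⟨x0 + s, y⟩| ≤ K
        rw [hK]; linarith) t hzt
    have h4 : |py φ ⟨x0 + t, y⟩| ≤ K * |t| := by
      have hin' : ∀ x ∈ uIcc (0:ℝ) t, |x| < t0 := by
        intro x hx
        have : |x - 0| ≤ |t - 0| := abs_sub_left_of_mem_uIcc hx
        simp only [sub_zero] at this
        exact this.trans_lt hzt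
      have h := (convex_uIcc (0:ℝ) t).norm_image_sub_le_of_norm_hasDerivWithin_le
        (f := fun s => py φ ⟨x0 + s, y⟩) (f' := fun s => px (py φ) ⟨x0 + s, y⟩)
        (C := K) (fun x hx => (lineD (sm_diff s2 (mem x (hin' x hx)))).hasDerivWithinAt)
        (fun x hx => by
          have := hK2 ⟨x0 + x, y⟩ ((rs x (hin' x hx)).le.trans (min_le_right _ _))
          show |px (py φ) ⟨x0 + x, y⟩| ≤ K
          rw [hK]; linarith) (left_mem_uIcc) (right_mem_uIcc)
      have h' : |py φ ⟨x0 + t, y⟩ - py φ ⟨x0 + 0, y⟩| ≤ K * |t - 0| := h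
      rw [l2 _ e0, sub_zero, sub_zero] at h'
      exact h'
    obtain ⟨h1, h2, h3⟩ := hone
    rw [ez]
    exact ⟨h1, h2, h3, h4⟩
  · intro z hzt
    have h1 := hK1 z hzt
    have h3 := hK3 z hzt
    have := le_abs_self (px (px φ) z)
    have := le_abs_self (py (py φ) z)
    rw [hK]
    linarith


/-! ### the flattening -/

theorem HDcomp {f : ℂ → ℝ} {z : ℂ} {p q : ℝ} {g : ℝ → ℝ} {g' : ℝ} (hg : HasDerivAt g g' (f z))
    (h : HD f z p q) : HD (fun z => g (f z)) z (g' * p) (g' * q) := by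
  have h1 := hg.comp_hasFDerivAt z h.1.hasFDerivAt
  have h1' : HasFDerivAt (fun z => g (f z)) (g' • fderiv ℝ f z) z := h1
  refine ⟨h1'.differentiableAt, ?_, ?_⟩
  · unfold px
    rw [h1'.fderiv]
    show g' * fderiv ℝ f z 1 = _
    rw [← h.2.1]; rfl
  · unfold py
    rw [h1'.fderiv]
    show g' * fderiv ℝ f z Complex.I = _
    rw [← h.2.2]; rfl

theorem px_ev {f g : ℂ → ℝ} {z : ℂ} (h : f =ᶠ[𝓝 z] g) : px f =ᶠ[𝓝 z] px g := by
  filter_upwards [h.fderiv (𝕜 := ℝ)] with u hu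
  unfold px
  rw [hu]

theorem py_ev {f g : ℂ → ℝ} {z : ℂ} (h : f =ᶠ[𝓝 z] g) : py f =ᶠ[𝓝 z] py g := by
  filter_upwards [h.fderiv (𝕜 := ℝ)] with u hu
  unfold py
  rw [hu]

theorem Lp_ev {f g : ℂ → ℝ} {z : ℂ} (h : f =ᶠ[𝓝 z] g) :
    px (px f) z + py (py f) z = px (px g) z + py (py g) z := by
  rw [(px_ev (px_ev h)).self_of_nhds, (py_ev (py_ev h)).self_of_nhds]

theorem HD.ev {f g : ℂ → ℝ} {z : ℂ} {p q : ℝ} (h : HD g z p q) (he : f =ᶠ[𝓝 z] g) : HD f z p q :=
  ⟨h.1.congr_of_eventuallyEq he, by rw [(px_ev he).self_of_nhds]; exact h.2.1,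
    by rw [(py_ev he).self_of_nhds]; exact h.2.2⟩

theorem HDre {a : ℝ → ℝ} {a' x0 : ℝ} {z : ℂ} (h : HasDerivAt a a' (z.re - x0)) :
    HD (fun z => a (z.re - x0)) z a' 0 := by
  have h1 : HasDerivAt (fun s : ℝ => a (s - x0)) a' z.re := h.comp_sub_const z.re x0
  have h2 := HD.re (a := fun s : ℝ => a (s - x0)) h1.differentiableAt
  rw [h1.deriv] at h2
  exact h2

/-- the derivatives of `e * N (ψ / e)` -/
theorem derW {φ : ℂ → ℝ} {x0 δ b e : ℝ} {N N1 N2 β β1 β2 : ℝ → ℝ} (he : 0 < e)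
    (hs : ContDiffOn ℝ ∞ φ (Sx x0 δ))
    (hN : ∀ u, HasDerivAt N (N1 u) u) (hN1 : ∀ u, HasDerivAt N1 (N2 u) u)
    (hβ : ∀ u, HasDerivAt β (β1 u) u) (hβ1 : ∀ u, HasDerivAt β1 (β2 u) u) {z : ℂ}
    (hz : z ∈ Sx x0 δ) :
    HD (fun z => e * N ((φ z - b - β (z.re - x0)) / e)) z
      (N1 ((φ z - b - β (z.re - x0)) / e) * (px φ z - β1 (z.re - x0)))
      (N1 ((φ z - b - β (z.re - x0)) / e) * py φ z) ∧
    px (px (fun z => φ z + e * N ((φ z - b - β (z.re - x0)) / e))) z +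
      py (py (fun z => φ z + e * N ((φ z - b - β (z.re - x0)) / e))) z =
      (1 + N1 ((φ z - b - β (z.re - x0)) / e)) * (px (px φ) z + py (py φ) z) -
      N1 ((φ z - b - β (z.re - x0)) / e) * β2 (z.re - x0) +
      N2 ((φ z - b - β (z.re - x0)) / e) / e *
        ((px φ z - β1 (z.re - x0)) ^ 2 + (py φ z) ^ 2) := by
  have s1 := sm_px hs
  have s2 := sm_py hs
  have hψ : ∀ z ∈ Sx x0 δ, HD (fun z => (φ z - b - β (z.re - x0)) / e) z
      ((px φ z - β1 (z.re - x0)) / e) (py φ z / e) := by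
    intro z hz
    have h1 := ((HD.self (sm_diff hs hz)).sub (HD.const b z)).sub (HDre (hβ (z.re - x0)))
    have h2 : HasDerivAt (fun x : ℝ => x / e) (1 / e) (φ z - b - β (z.re - x0)) :=
      (hasDerivAt_id _).div_const e
    refine HD.cg (HDcomp h2 h1) ?_ ?_
    · ring
    · ring
  have hW : ∀ z ∈ Sx x0 δ, HD (fun z => e * N ((φ z - b - β (z.re - x0)) / e)) z
      (N1 ((φ z - b - β (z.re - x0)) / e) * (px φ z - β1 (z.re - x0)))
      (N1 ((φ z - b - β (z.re - x0)) / e) * py φ z) := by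
    intro z hz
    have h1 := HDcomp (hN ((φ z - b - β (z.re - x0)) / e)) (hψ z hz)
    have h2 : HasDerivAt (fun x : ℝ => e * x) (e * 1) (N ((φ z - b - β (z.re - x0)) / e)) :=
      (hasDerivAt_id _).const_mul e
    exact (HDcomp h2 h1).cg (by field_simp) (by field_simp)
  refine ⟨hW z hz, ?_⟩
  have hS : Sx x0 δ ∈ 𝓝 z := (isOpen_Sx x0 δ).mem_nhds hz
  have hT : ∀ z ∈ Sx x0 δ, HD (fun z => φ z + e * N ((φ z - b - β (z.re - x0)) / e)) z
      (px φ z + N1 ((φ z - b - β (z.re - x0)) / e) * (px φ z - β1 (z.re - x0)))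
      (py φ z + N1 ((φ z - b - β (z.re - x0)) / e) * py φ z) := fun z hz =>
    (HD.self (sm_diff hs hz)).add (hW z hz)
  have e1 : px (fun z => φ z + e * N ((φ z - b - β (z.re - x0)) / e)) =ᶠ[𝓝 z] fun z =>
      px φ z + N1 ((φ z - b - β (z.re - x0)) / e) * (px φ z - β1 (z.re - x0)) := by
    filter_upwards [hS] with u hu
    exact (hT u hu).2.1
  have e2 : py (fun z => φ z + e * N ((φ z - b - β (z.re - x0)) / e)) =ᶠ[𝓝 z] fun z =>
      py φ z + N1 ((φ z - b - β (z.re - x0)) / e) * py φ z := by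
    filter_upwards [hS] with u hu
    exact (hT u hu).2.2
  have hn1 := HDcomp (hN1 ((φ z - b - β (z.re - x0)) / e)) (hψ z hz)
  have d1 := (HD.self (sm_diff s1 hz)).add (hn1.mul ((HD.self (sm_diff s1 hz)).sub
    (HDre (hβ1 (z.re - x0)))))
  have d2 := (HD.self (sm_diff s2 hz)).add (hn1.mul (HD.self (sm_diff s2 hz)))
  rw [(px_ev e1).self_of_nhds, (py_ev e2).self_of_nhds, d1.2.1, d2.2.2]
  ring

theorem comb {m A B : ℝ} (h0 : 0 ≤ m) (h1 : m ≤ 1) (hA : 0 < A) (hB : 0 < B) :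
    0 < m * A + (1 - m) * B := by
  rcases h0.eq_or_lt with h | h
  · rw [← h]; linarith
  · have := mul_pos h hA
    have := mul_nonneg (sub_nonneg.2 h1) hB.le
    linarith

theorem flat_main {φ : ℂ → ℝ} {x0 δ : ℝ} (hδ : 0 < δ) (hs : ContDiffOn ℝ ∞ φ (Sx x0 δ))
    (hp : ∀ z ∈ Sx x0 δ, φ (z + 2 * π * Complex.I) = φ z)
    (hz : ∀ z : ℂ, z.re = x0 → φ z = 0 ∧ px φ z = 0)
    (hL : ∀ z ∈ Sx x0 δ, 0 < px (px φ) z + py (py φ) z) :
    ∃ B : ℝ, ∀ ε : ℝ, 0 < ε → ∃ (w : ℂ → ℝ) (c r : ℝ),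
      (ContDiffOn ℝ ∞ w (Sx x0 δ) ∧ (∀ z ∈ Sx x0 δ, w (z + 2 * π * Complex.I) = w z) ∧
      (∃ r : ℝ, r < δ ∧ ∀ z ∈ Sx x0 δ, r ≤ |z.re - x0| → w z = 0) ∧ 0 < r ∧ r < δ / 4 ∧
      (∀ z : ℂ, |z.re - x0| ≤ r → φ z + w z + c = 0) ∧
      (∀ z : ℂ, r < |z.re - x0| → |z.re - x0| < δ →
        0 < px (px (fun z => φ z + w z)) z + py (py (fun z => φ z + w z)) z)) ∧
      r < ε ∧ |c| ≤ ε ∧
      (∀ z ∈ Sx x0 δ, |w z| ≤ ε ∧ |px w z| ≤ ε ∧ |py w z| ≤ ε) ∧
      (∀ z ∈ Sx x0 δ, δ / 2 ≤ |z.re - x0| → w z = 0) ∧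
      ∀ z ∈ Sx x0 δ, |z.re - x0| ≤ δ / 2 →
        px (px (fun z => φ z + w z)) z + py (py (fun z => φ z + w z)) z ≤ B := by
  obtain ⟨t0, k, K, ht0, ht0δ, hk, hkK, hC1, hC2⟩ := coreC hδ hs hp hz hL
  obtain ⟨N, N1, N2, κ, C, Ns, N1s, hN, hN1, Nz, Nn, N1l, N1u, N2l, N2u, Na, hκ, hC⟩ := exN
  have hK : 0 < K := hk.trans_le hkK
  refine ⟨K + 1 + 16 * C / k * ((2 * K + 1) ^ 2 + 4 * K ^ 2), fun ε hε => ?_⟩
  set M := 4 * K + k + 1 with hM
  have hM1 : 1 ≤ M := by rw [hM]; linarith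
  have hMp : 0 < M := by linarith
  obtain ⟨a, ha, ha1, ha2, ha3, ha4⟩ : ∃ a : ℝ, 0 < a ∧ a ≤ t0 / 4 ∧ a ≤ δ / 16 ∧ a ≤ 1 ∧
      M * a ≤ ε := by
    refine ⟨min (min (t0 / 4) (δ / 16)) (min 1 (ε / M)), by positivity,
      (min_le_left _ _).trans (min_le_left _ _), (min_le_left _ _).trans (min_le_right _ _),
      (min_le_right _ _).trans (min_le_left _ _), ?_⟩
    have h1 : min (min (t0 / 4) (δ / 16)) (min 1 (ε / M)) ≤ ε / M :=
      (min_le_right _ _).trans (min_le_right _ _)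
    rw [le_div_iff₀ hMp] at h1
    linarith
  set b := k * a ^ 2 / 4 with hb
  set e := k * a ^ 2 / 16 with he
  set r := a * k / (8 * K) with hr
  have hka : 0 < k * a ^ 2 := by positivity
  have hbp : 0 < b := by rw [hb]; positivity
  have hep : 0 < e := by rw [he]; positivity
  have hrp : 0 < r := by rw [hr]; positivity
  have hra : r ≤ a / 8 := by
    rw [hr, div_le_div_iff₀ (by positivity) (by norm_num)]
    nlinarith [mul_nonneg ha.le (sub_nonneg.2 hkK)]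
  set η := min (b / 8) a with hη
  have hηp : 0 < η := by rw [hη]; positivity
  have hη1 : η ≤ b / 8 := min_le_left _ _
  have hη2 : η ≤ a := min_le_right _ _
  obtain ⟨β, β1, β2, βs, β1s, hβ, hβ1, βz, β2p, β2n, βb, β1b, β2b⟩ :=
    exB (r := r) (A := 2 * a) (η := η) hrp (by positivity) hηp
  have hKr : K * r ^ 2 ≤ b / 16 := by
    have h1 : K * r ^ 2 = (k * a ^ 2 / 64) * (k / K) := by
      rw [hr]; field_simp; ring
    have h2 : k / K ≤ 1 := by rw [div_le_one hK]; exact hkK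
    rw [h1, hb]
    have h3 : (k * a ^ 2 / 64) * (k / K) ≤ (k * a ^ 2 / 64) * 1 := by gcongr
    linarith
  set W : ℂ → ℝ := fun z => e * N ((φ z - b - β (z.re - x0)) / e) with hW
  set w : ℂ → ℝ := fun z => if |z.re - x0| < 2 * a then W z else 0 with hw
  have hsub : ∀ z : ℂ, |z.re - x0| < 2 * a → z ∈ Sx x0 δ := by
    intro z hz
    rw [mem_Sx]; linarith
  have ht0' : ∀ z : ℂ, |z.re - x0| < 2 * a → |z.re - x0| < t0 := by
    intro z hz
    linarith
  have Wz : ∀ z : ℂ, a ≤ |z.re - x0| → |z.re - x0| < 2 * a → W z = 0 := by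
    intro z h1 h2
    have h3 := (hC1 z (ht0' z h2)).1
    have h4 := (abs_le.1 (βb (z.re - x0) h2.le)).2
    have h5 : a ^ 2 ≤ (z.re - x0) ^ 2 := by
      rw [← sq_abs (z.re - x0)]
      exact pow_le_pow_left₀ ha.le h1 2
    have h6 : k * a ^ 2 ≤ k * (z.re - x0) ^ 2 := by gcongr
    show e * N ((φ z - b - β (z.re - x0)) / e) = 0
    rw [Nz, mul_zero]
    rw [le_div_iff₀ hep, one_mul]
    linarith
  have wz : ∀ z : ℂ, a ≤ |z.re - x0| → w z = 0 := by
    intro z h1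
    by_cases h2 : |z.re - x0| < 2 * a
    · show (if |z.re - x0| < 2 * a then W z else 0) = 0
      rw [if_pos h2]; exact Wz z h1 h2
    · show (if |z.re - x0| < 2 * a then W z else 0) = 0
      rw [if_neg h2]
  have wW : ∀ z : ℂ, |z.re - x0| < 2 * a → w z = W z := fun z h => if_pos h
  have evW : ∀ z : ℂ, |z.re - x0| < 2 * a → w =ᶠ[𝓝 z] W := by
    intro z h
    filter_upwards [(isOpen_Sx x0 (2 * a)).mem_nhds (mem_Sx.2 h)] with u hu
    exact wW u hu
  have ev0 : ∀ z : ℂ, a < |z.re - x0| → w =ᶠ[𝓝 z] fun _ => 0 := by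
    intro z h
    have ho : IsOpen {z : ℂ | a < |z.re - x0|} :=
      isOpen_lt continuous_const (continuous_abs.comp (Complex.continuous_re.sub continuous_const))
    filter_upwards [ho.mem_nhds h] with u hu
    exact wz u (le_of_lt hu)
  have Ws : ContDiffOn ℝ ∞ W (Sx x0 δ) := by
    have h1 : ContDiffOn ℝ ∞ (fun z : ℂ => β (z.re - x0)) (Sx x0 δ) := by
      refine (βs.comp (?_ : ContDiff ℝ ∞ fun z : ℂ => z.re - x0)).contDiffOn
      exact Complex.reCLM.contDiff.sub contDiff_const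
    have h2 : ContDiffOn ℝ ∞ (fun z : ℂ => (φ z - b - β (z.re - x0)) / e) (Sx x0 δ) :=
      ((hs.sub contDiffOn_const).sub h1).div_const e
    exact contDiffOn_const.mul (Ns.comp_contDiffOn h2)
  have cases2 : ∀ z : ℂ, |z.re - x0| < 2 * a ∨ a < |z.re - x0| := by
    intro z
    rcases lt_or_ge (|z.re - x0|) (2 * a) with h | h
    · exact Or.inl h
    · right; linarith
  have sizeW : ∀ z : ℂ, |z.re - x0| < 2 * a → |φ z| ≤ 4 * K * a ^ 2 ∧ |px φ z| ≤ 2 * K * a ∧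
      |py φ z| ≤ 2 * K * a := by
    intro z h
    obtain ⟨-, h2, h3, h4⟩ := hC1 z (ht0' z h)
    refine ⟨h2.trans ?_, h3.trans ?_, h4.trans ?_⟩
    · have h5 : (z.re - x0) ^ 2 ≤ (2 * a) ^ 2 := by
        rw [← sq_abs (z.re - x0)]
        exact pow_le_pow_left₀ (abs_nonneg _) h.le 2
      calc K * (z.re - x0) ^ 2 ≤ K * (2 * a) ^ 2 := by gcongr
        _ = _ := by ring
    · calc K * |z.re - x0| ≤ K * (2 * a) := by gcongr
        _ = _ := by ring
    · calc K * |z.re - x0| ≤ K * (2 * a) := by gcongr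
        _ = _ := by ring
  have haa : a ^ 2 ≤ a := by nlinarith
  have hMa : 4 * K * a + k * a + a ≤ ε := by
    calc 4 * K * a + k * a + a = M * a := by rw [hM]; ring
      _ ≤ ε := ha4
  have hKa : 0 < K * a := by positivity
  have hka' : 0 < k * a := by positivity
  have hKaa : K * a ^ 2 ≤ K * a := by gcongr
  have hkaa : k * a ^ 2 ≤ k * a := by gcongr
  have LW : ∀ z : ℂ, |z.re - x0| < 2 * a →
      px (px (fun z => φ z + w z)) z + py (py (fun z => φ z + w z)) z =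
      (1 + N1 ((φ z - b - β (z.re - x0)) / e)) * (px (px φ) z + py (py φ) z) -
      N1 ((φ z - b - β (z.re - x0)) / e) * β2 (z.re - x0) +
      N2 ((φ z - b - β (z.re - x0)) / e) / e *
        ((px φ z - β1 (z.re - x0)) ^ 2 + (py φ z) ^ 2) := by
    intro z h
    rw [← (derW (b := b) hep hs hN hN1 hβ hβ1 (hsub z h)).2]
    refine Lp_ev ?_
    filter_upwards [evW z h] with u hu
    rw [hu]
  have L0 : ∀ z : ℂ, a < |z.re - x0| →
      px (px (fun z => φ z + w z)) z + py (py (fun z => φ z + w z)) z =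
      px (px φ) z + py (py φ) z := by
    intro z h
    refine Lp_ev ?_
    filter_upwards [ev0 z h] with u hu
    rw [hu, add_zero]
  refine ⟨w, -(b + e * κ), r, ⟨?_, ?_, ⟨a, by linarith, fun z _ h => wz z h⟩, hrp, by linarith,
    ?_, ?_⟩, ?_, ?_, ?_, fun z _ h => wz z (by linarith), ?_⟩
  · intro z hz'
    refine ContDiffAt.contDiffWithinAt ?_
    rcases cases2 z with h | h
    · exact ((Ws z hz').contDiffAt ((isOpen_Sx x0 δ).mem_nhds hz')).congr_of_eventuallyEq (evW z h)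
    · exact contDiffAt_const.congr_of_eventuallyEq (ev0 z h)
  · intro z hz'
    show (if |(z + 2 * π * Complex.I).re - x0| < 2 * a then
      e * N ((φ (z + 2 * π * Complex.I) - b - β ((z + 2 * π * Complex.I).re - x0)) / e) else 0) =
      if |z.re - x0| < 2 * a then e * N ((φ z - b - β (z.re - x0)) / e) else 0
    rw [shift_re, hp z hz']
  · intro z h
    have h2a : |z.re - x0| < 2 * a := by linarith
    have hq := (hC1 z (ht0' z h2a)).2.1
    have h5 : (z.re - x0) ^ 2 ≤ r ^ 2 := by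
      rw [← sq_abs (z.re - x0)]
      exact pow_le_pow_left₀ (abs_nonneg _) h 2
    have h6 : K * (z.re - x0) ^ 2 ≤ K * r ^ 2 := by gcongr
    have h7 := (abs_le.1 hq).2
    rw [wW z h2a]
    show φ z + e * N ((φ z - b - β (z.re - x0)) / e) + -(b + e * κ) = 0
    rw [βz _ h, sub_zero, Nn]
    · field_simp
      ring
    · rw [div_le_iff₀ hep]
      linarith
  · intro z h1 h2
    have hLz := hL z (mem_Sx.2 h2)
    rcases cases2 z with h | h
    · rw [LW z h]
      have hl := N1l ((φ z - b - β (z.re - x0)) / e)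
      have hu := N1u ((φ z - b - β (z.re - x0)) / e)
      have h3 := comb (m := 1 + N1 ((φ z - b - β (z.re - x0)) / e)) (by linarith) (by linarith) hLz
        (β2p _ h1)
      have h4 : 0 ≤ N2 ((φ z - b - β (z.re - x0)) / e) / e *
        ((px φ z - β1 (z.re - x0)) ^ 2 + (py φ z) ^ 2) :=
        mul_nonneg (div_nonneg (N2l _) hep.le) (by positivity)
      have h5 : (1 - (1 + N1 ((φ z - b - β (z.re - x0)) / e))) * β2 (z.re - x0) =
        -(N1 ((φ z - b - β (z.re - x0)) / e) * β2 (z.re - x0)) := by ring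
      rw [h5] at h3
      linarith
    · rw [L0 z h]
      exact hLz
  · linarith
  · rw [abs_neg]
    have h1 : |b + e * κ| ≤ |b| + |e * κ| := abs_add_le _ _
    have h2 : |e * κ| ≤ e * 3 := by
      rw [abs_mul, abs_of_pos hep]
      gcongr
    rw [abs_of_pos hbp] at h1
    linarith
  · intro z hz'
    rcases cases2 z with h | h
    · obtain ⟨s0, s1, s2⟩ := sizeW z h
      have hd := (derW (b := b) hep hs hN hN1 hβ hβ1 hz').1
      have hd' : HD w z (N1 ((φ z - b - β (z.re - x0)) / e) * (px φ z - β1 (z.re - x0)))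
        (N1 ((φ z - b - β (z.re - x0)) / e) * py φ z) := HD.ev hd (evW z h)
      have hn : |N1 ((φ z - b - β (z.re - x0)) / e)| ≤ 1 := by
        rw [abs_le]
        exact ⟨N1l _, (N1u _).trans zero_le_one⟩
      have b0 := βb (z.re - x0) h.le
      have b1 := β1b (z.re - x0) h.le
      refine ⟨?_, ?_, ?_⟩
      · rw [wW z h]
        show |e * N ((φ z - b - β (z.re - x0)) / e)| ≤ ε
        rw [abs_mul, abs_of_pos hep]
        have h1 := Na ((φ z - b - β (z.re - x0)) / e)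
        have h2 : e * |N ((φ z - b - β (z.re - x0)) / e)| ≤
          e * (|(φ z - b - β (z.re - x0)) / e| + 1) := by gcongr
        have h3 : e * (|(φ z - b - β (z.re - x0)) / e| + 1) = |φ z - b - β (z.re - x0)| + e := by
          rw [abs_div, abs_of_pos hep]
          field_simp
        have h4 : |φ z - b - β (z.re - x0)| ≤ |φ z| + b + η := by
          rw [abs_le]
          have := abs_le.1 b0
          have := neg_abs_le (φ z)
          have := le_abs_self (φ z)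
          constructor
          · linarith [(abs_le.1 b0).1, (abs_le.1 b0).2]
          · linarith [(abs_le.1 b0).1, (abs_le.1 b0).2]
        linarith
      · rw [hd'.2.1, abs_mul]
        have h1 : |px φ z - β1 (z.re - x0)| ≤ |px φ z| + |β1 (z.re - x0)| := abs_sub _ _
        have h2 : |N1 ((φ z - b - β (z.re - x0)) / e)| * |px φ z - β1 (z.re - x0)| ≤
          1 * |px φ z - β1 (z.re - x0)| := by gcongr
        linarith
      · rw [hd'.2.2, abs_mul]
        have h2 : |N1 ((φ z - b - β (z.re - x0)) / e)| * |py φ z| ≤ 1 * |py φ z| := by gcongr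
        linarith
    · have h0 := ev0 z h
      have hd' : HD w z 0 0 := HD.ev (HD.const 0 z) h0
      rw [hd'.2.1, hd'.2.2, wz z h.le, abs_zero]
      exact ⟨hε.le, hε.le, hε.le⟩
  · intro z hz' hzd
    have hB0 : 0 ≤ 16 * C / k * ((2 * K + 1) ^ 2 + 4 * K ^ 2) := by positivity
    have hKz := hC2 z hzd
    have hLz := hL z hz'
    rcases cases2 z with h | h
    · rw [LW z h]
      obtain ⟨s0, s1, s2⟩ := sizeW z h
      have hl := N1l ((φ z - b - β (z.re - x0)) / e)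
      have hu := N1u ((φ z - b - β (z.re - x0)) / e)
      have b1 := β1b (z.re - x0) h.le
      have b2 := (abs_le.1 (β2b (z.re - x0) h.le)).2
      have b2' := β2n (z.re - x0)
      have q1 : (1 + N1 ((φ z - b - β (z.re - x0)) / e)) * (px (px φ) z + py (py φ) z) ≤ K := by
        calc (1 + N1 ((φ z - b - β (z.re - x0)) / e)) * (px (px φ) z + py (py φ) z)
            ≤ 1 * (px (px φ) z + py (py φ) z) := by
              apply mul_le_mul_of_nonneg_right (by linarith) hLz.le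
          _ ≤ K := by rw [one_mul]; exact hKz
      have q2 : -(N1 ((φ z - b - β (z.re - x0)) / e) * β2 (z.re - x0)) ≤ 1 := by
        calc -(N1 ((φ z - b - β (z.re - x0)) / e) * β2 (z.re - x0))
            = -N1 ((φ z - b - β (z.re - x0)) / e) * β2 (z.re - x0) := by ring
          _ ≤ 1 * β2 (z.re - x0) := by
              apply mul_le_mul_of_nonneg_right (by linarith) b2'
          _ ≤ 1 := by linarith
      have q3 : (px φ z - β1 (z.re - x0)) ^ 2 + (py φ z) ^ 2 ≤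
          a ^ 2 * ((2 * K + 1) ^ 2 + 4 * K ^ 2) := by
        have h1 : |px φ z - β1 (z.re - x0)| ≤ (2 * K + 1) * a := by
          have : |px φ z - β1 (z.re - x0)| ≤ |px φ z| + |β1 (z.re - x0)| := abs_sub _ _
          linarith
        have h2 : (px φ z - β1 (z.re - x0)) ^ 2 ≤ ((2 * K + 1) * a) ^ 2 := by
          rw [← sq_abs (px φ z - β1 (z.re - x0))]
          exact pow_le_pow_left₀ (abs_nonneg _) h1 2
        have h3 : (py φ z) ^ 2 ≤ (2 * K * a) ^ 2 := by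
          rw [← sq_abs (py φ z)]
          exact pow_le_pow_left₀ (abs_nonneg _) s2 2
        calc _ ≤ ((2 * K + 1) * a) ^ 2 + (2 * K * a) ^ 2 := add_le_add h2 h3
          _ = _ := by ring
      have q4 : N2 ((φ z - b - β (z.re - x0)) / e) / e *
          ((px φ z - β1 (z.re - x0)) ^ 2 + (py φ z) ^ 2) ≤
          16 * C / k * ((2 * K + 1) ^ 2 + 4 * K ^ 2) := by
        calc N2 ((φ z - b - β (z.re - x0)) / e) / e *
          ((px φ z - β1 (z.re - x0)) ^ 2 + (py φ z) ^ 2) ≤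
            C / e * (a ^ 2 * ((2 * K + 1) ^ 2 + 4 * K ^ 2)) := by
              refine mul_le_mul ?_ q3 (by positivity) (by positivity)
              exact div_le_div_of_nonneg_right (N2u _) hep.le
          _ = 16 * C / k * ((2 * K + 1) ^ 2 + 4 * K ^ 2) := by
              rw [he]; field_simp
      linarith
    · rw [L0 z h]
      linarith


open Pool.Agent.H240.GU in
/-- `GU-4` -/
theorem stFl : StFl := by
  intro φ x0 δ hδ hs hp hz hL
  obtain ⟨B, hB⟩ := flat_main hδ hs hp hz hL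
  refine ⟨B, fun ε hε => ?_⟩
  obtain ⟨w, c, r, ⟨h1, h2, h3, h4, h5, h6, h7⟩, h8, h9, h10, h11, h12⟩ := hB ε hε
  exact ⟨w, c, r, ⟨⟨h1, h2, h3⟩, h4, h5, h6, h7⟩, h8, h9, h10, h11, h12⟩

end Pool.Agent.H356.GU
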